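import Mathlib

/-!
# Topological quandle structures on spheres: exactly continuum many, up to isomorphism
-/

set_option autoImplicit false

namespace Pool.Agent.Results.MP_6238b5_al.ContinuumMany

open Real

/-- The unit sphere `S^(n+2)` of `ℝ^(n+3)`; so `Sph 0` is the 2-sphere. -/
abbrev Sph (n : ℕ) : Type := Metric.sphere (0 : EuclideanSpace ℝ (Fin (n + 3))) 1

/-- Rodrigues formula: the image of `u` under the rotation by the angle `ψ` about the unit
vector `v`. -/
noncomputable def rot (ψ : ℝ) (v u : EuclideanSpace ℝ (Fin 3)) : EuclideanSpace ℝ (Fin 3) :=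
  cos ψ • u + sin ψ • WithLp.toLp 2 (crossProduct v.ofLp u.ofLp) + ((1 - cos ψ) * inner ℝ v u) • v

/-- `op` is a continuous quandle operation on the topological space `X`. -/
structure IsTopQuandle {X : Type} [TopologicalSpace X] (op : X → X → X) : Prop where
  idem : ∀ x, op x x = x
  bij : ∀ y, Function.Bijective (fun x => op x y)
  distrib : ∀ x y z, op (op x y) z = op (op x z) (op y z)
  cont : Continuous (fun p : X × X => op p.1 p.2)

/-- The topological quandles `(X, op)` and `(X, op')` are isomorphic. -/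
def TopIso {X : Type} [TopologicalSpace X] (op op' : X → X → X) : Prop :=
  ∃ h : X ≃ₜ X, ∀ x y, h (op x y) = op' (h x) (h y)

/-- `(X, op)` and `(X, op')` are isomorphic as abstract quandles (by a bijection which need not be
continuous). -/
def AbsIso {X : Type} (op op' : X → X → X) : Prop :=
  ∃ h : X ≃ X, ∀ x y, h (op x y) = op' (h x) (h y)

/-- Isomorphism of topological quandle structures on `X`. -/
def isoSetoid (X : Type) [TopologicalSpace X] :
    Setoid {op : X → X → X // IsTopQuandle op} where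
  r a b := TopIso a.1 b.1
  iseqv :=
    { refl := fun _ => ⟨Homeomorph.refl X, fun _ _ => rfl⟩
      symm := fun {a b} ⟨h, H⟩ => ⟨h.symm, fun x y => by
        apply h.injective
        rw [H]
        simp⟩
      trans := fun {a b c} ⟨h, H⟩ ⟨k, K⟩ => ⟨h.trans k, fun x y => by
        simp [H, K]⟩ }

/-- The isomorphism classes of topological quandle structures on `X`. -/
def IsoClasses (X : Type) [TopologicalSpace X] : Type := Quotient (isoSetoid X)

/-! ### Rotating the first two coordinates -/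

variable {n : ℕ}

lemma mem_iff {x : EuclideanSpace ℝ (Fin (n + 3))} :
    x ∈ Metric.sphere (0 : EuclideanSpace ℝ (Fin (n + 3))) 1 ↔ ∑ i, x i ^ 2 = 1 := by
  rw [mem_sphere_zero_iff_norm, EuclideanSpace.norm_eq, sqrt_eq_one]
  simp

lemma sum_split (f : Fin (n + 3) → ℝ) :
    ∑ i, f i ^ 2 = f 0 ^ 2 + f 1 ^ 2 + ∑ i : Fin (n + 1), f i.succ.succ ^ 2 := by
  rw [Fin.sum_univ_succ, Fin.sum_univ_succ]
  simp only [Fin.succ_zero_eq_one]
  ring

/-- the rotation as a function on vectors -/
noncomputable def rv (t : ℝ) (x : Fin (n + 3) → ℝ) : Fin (n + 3) → ℝ :=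
  Fin.cons (x 0 * cos t - x 1 * sin t) (Fin.cons (x 0 * sin t + x 1 * cos t)
    (fun i : Fin (n + 1) => x i.succ.succ))

lemma rv_zero (t : ℝ) (x : Fin (n + 3) → ℝ) : rv t x 0 = x 0 * cos t - x 1 * sin t := rfl

lemma rv_one (t : ℝ) (x : Fin (n + 3) → ℝ) : rv t x 1 = x 0 * sin t + x 1 * cos t := rfl

lemma rv_succ (t : ℝ) (x : Fin (n + 3) → ℝ) (i : Fin (n + 1)) :
    rv t x i.succ.succ = x i.succ.succ := rfl

lemma fin_cases3 {P : Fin (n + 3) → Prop} (h0 : P 0) (h1 : P 1)
    (h2 : ∀ i : Fin (n + 1), P i.succ.succ) : ∀ i, P i := by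
  intro i
  refine Fin.cases h0 (fun j => ?_) i
  refine Fin.cases ?_ (fun k => h2 k) j
  rw [Fin.succ_zero_eq_one]
  exact h1

/-- The rotation by the angle `t` of the first two coordinates of a point of the sphere. -/
noncomputable def R (t : ℝ) (x : Sph n) : Sph n :=
  ⟨WithLp.toLp 2 (rv t x.1), by
    have h := mem_iff.1 x.2
    rw [mem_iff]
    rw [sum_split] at h ⊢
    show rv t x.1 0 ^ 2 + rv t x.1 1 ^ 2 + ∑ i : Fin (n + 1), rv t x.1 i.succ.succ ^ 2 = 1
    simp only [rv_zero, rv_one, rv_succ]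
    have := sin_sq_add_cos_sq t
    linear_combination h + (x.1 0 ^ 2 + x.1 1 ^ 2) * this⟩

/-- the height: the third coordinate -/
def ht (x : Sph n) : ℝ := x.1 (0 : Fin (n + 1)).succ.succ

lemma ht_R (t : ℝ) (x : Sph n) : ht (R t x) = ht x := rfl

lemma RR (s t : ℝ) (x : Sph n) : R s (R t x) = R (s + t) x := by
  apply Subtype.ext
  ext i
  revert i
  apply fin_cases3
  · show rv s (rv t x.1) 0 = rv (s + t) x.1 0
    simp only [rv_zero, rv_one, cos_add, sin_add]
    ring
  · show rv s (rv t x.1) 1 = rv (s + t) x.1 1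
    simp only [rv_zero, rv_one, cos_add, sin_add]
    ring
  · intro i
    rfl

lemma R0 (x : Sph n) : R 0 x = x := by
  apply Subtype.ext
  ext i
  revert i
  apply fin_cases3
  · show rv 0 x.1 0 = x.1 0
    simp [rv_zero]
  · show rv 0 x.1 1 = x.1 1
    simp [rv_one]
  · intro i
    rfl

lemma continuous_R : Continuous (fun p : ℝ × Sph n => R p.1 p.2) := by
  refine Continuous.subtype_mk ((PiLp.continuous_toLp 2 _).comp (continuous_pi ?_)) _
  have h : ∀ i : Fin (n + 3), Continuous fun p : ℝ × Sph n => p.2.1 i := fun i => by fun_prop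
  apply fin_cases3
  · simp only [rv_zero]
    have := h 0
    have := h 1
    fun_prop
  · simp only [rv_one]
    have := h 0
    have := h 1
    fun_prop
  · intro i
    simp only [rv_succ]
    exact h _

lemma continuous_ht : Continuous (ht : Sph n → ℝ) := by
  unfold ht
  fun_prop

lemma R_eq_iff {x : Sph n} (hx : x.1 0 ^ 2 + x.1 1 ^ 2 ≠ 0) (t : ℝ) :
    R t x = x ↔ ∃ k : ℤ, t = k * (2 * π) := by
  constructor
  · intro h
    have h0 : x.1 0 * cos t - x.1 1 * sin t = x.1 0 := by
      have := congrArg (fun y : Sph n => y.1 0) h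
      exact this
    have h1 : x.1 0 * sin t + x.1 1 * cos t = x.1 1 := by
      have := congrArg (fun y : Sph n => y.1 1) h
      exact this
    have h2 : (x.1 0 ^ 2 + x.1 1 ^ 2) * (cos t - 1) = 0 := by
      linear_combination x.1 0 * h0 + x.1 1 * h1
    have h3 : cos t = 1 := by
      have := (mul_eq_zero.1 h2).resolve_left hx
      linarith
    obtain ⟨k, hk⟩ := (cos_eq_one_iff t).1 h3
    exact ⟨k, hk.symm⟩
  · rintro ⟨k, rfl⟩
    have hs : sin (k * (2 * π)) = 0 := by
      have := sin_int_mul_pi (2 * k)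
      push_cast at this
      rw [← this]
      congr 1
      ring
    have hc : cos (k * (2 * π)) = 1 := cos_int_mul_two_pi k
    apply Subtype.ext
    ext i
    revert i
    apply fin_cases3
    · show rv _ x.1 0 = x.1 0
      rw [rv_zero, hs, hc]
      ring
    · show rv _ x.1 1 = x.1 1
      rw [rv_one, hs, hc]
      ring
    · intro i
      rfl

lemma R_fixed {x : Sph n} (hx : x.1 0 ^ 2 + x.1 1 ^ 2 = 0) (t : ℝ) : R t x = x := by
  have h0 : x.1 0 = 0 := by nlinarith [sq_nonneg (x.1 0), sq_nonneg (x.1 1)]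
  have h1 : x.1 1 = 0 := by nlinarith [sq_nonneg (x.1 0), sq_nonneg (x.1 1)]
  apply Subtype.ext
  ext i
  revert i
  apply fin_cases3
  · show rv _ x.1 0 = x.1 0
    simp [rv_zero, h0, h1]
  · show rv _ x.1 1 = x.1 1
    simp [rv_one, h0, h1]
  · intro i
    rfl

/-- a free point of height `h` -/
lemma exists_ht (h : ℝ) (hh : h ^ 2 < 1) :
    ∃ x : Sph n, ht x = h ∧ x.1 0 ^ 2 + x.1 1 ^ 2 ≠ 0 := by
  have hs : 0 < 1 - h ^ 2 := by linarith
  refine ⟨⟨WithLp.toLp 2 (Fin.cons (sqrt (1 - h ^ 2)) (Fin.cons 0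
    (fun i : Fin (n + 1) => if i = 0 then h else 0))), ?_⟩, ?_, ?_⟩
  · rw [mem_iff, sum_split]
    show (sqrt (1 - h ^ 2)) ^ 2 + (0 : ℝ) ^ 2 + ∑ i : Fin (n + 1), (if i = 0 then h else 0) ^ 2 = 1
    rw [sq_sqrt hs.le]
    have : ∑ i : Fin (n + 1), (if i = 0 then h else 0) ^ 2 = h ^ 2 := by
      rw [Finset.sum_eq_single 0]
      · simp
      · intro b _ hb
        simp [hb]
      · simp
    rw [this]
    ring
  · show (if (0 : Fin (n + 1)) = 0 then h else 0) = h
    simp
  · show (sqrt (1 - h ^ 2)) ^ 2 + (0 : ℝ) ^ 2 ≠ 0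
    rw [sq_sqrt hs.le]
    nlinarith

/-- a fixed point of all the rotations -/
lemma exists_pole : ∃ x : Sph n, x.1 0 ^ 2 + x.1 1 ^ 2 = 0 := by
  refine ⟨⟨WithLp.toLp 2 (Fin.cons 0 (Fin.cons 0
    (fun i : Fin (n + 1) => if i = 0 then 1 else 0))), ?_⟩, ?_⟩
  · rw [mem_iff, sum_split]
    show (0 : ℝ) ^ 2 + (0 : ℝ) ^ 2 + ∑ i : Fin (n + 1), (if i = 0 then (1 : ℝ) else 0) ^ 2 = 1
    have : ∑ i : Fin (n + 1), (if i = 0 then (1 : ℝ) else 0) ^ 2 = 1 := by
      rw [Finset.sum_eq_single 0]
      · simp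
      · intro b _ hb
        simp [hb]
      · simp
    rw [this]
    ring
  · show (0 : ℝ) ^ 2 + (0 : ℝ) ^ 2 = 0
    ring

/-! ### The coding functions -/

/-- tent functions with disjoint supports -/
noncomputable def bump (d : ℕ) (h : ℝ) : ℝ := max 0 (1 - 4 * |2 ^ (d + 1) * h - 1|)

lemma bump_nonneg (d : ℕ) (h : ℝ) : 0 ≤ bump d h := le_max_left _ _

lemma bump_le (d : ℕ) (h : ℝ) : bump d h ≤ 1 := by
  unfold bump
  apply max_le (by norm_num)
  have := abs_nonneg (2 ^ (d + 1) * h - 1)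
  linarith

lemma bump_pos {d : ℕ} {h : ℝ} (H : bump d h ≠ 0) :
    3 / 4 < 2 ^ (d + 1) * h ∧ 2 ^ (d + 1) * h < 5 / 4 := by
  have h1 : 0 < 1 - 4 * |2 ^ (d + 1) * h - 1| := by
    by_contra hc
    exact H (max_eq_left (not_lt.1 hc))
  have h2 : |2 ^ (d + 1) * h - 1| < 1 / 4 := by linarith
  rw [abs_lt] at h2
  constructor <;> linarith [h2.1, h2.2]

lemma bump_unique {d e : ℕ} {h : ℝ} (hd : bump d h ≠ 0) (he : bump e h ≠ 0) : d = e := by
  have key : ∀ {d e : ℕ}, bump d h ≠ 0 → bump e h ≠ 0 → ¬ d < e := by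
    intro d e hd he hlt
    have h1 := bump_pos hd
    have h2 := bump_pos he
    obtain ⟨k, rfl⟩ := Nat.exists_eq_add_of_lt hlt
    have h3 : (2 : ℝ) ^ (d + k + 1 + 1) = 2 ^ (d + 1) * 2 ^ (k + 1) := by rw [← pow_add]; ring
    have h4 : (2 : ℝ) ≤ 2 ^ (k + 1) := by
      have : (1 : ℝ) ≤ 2 ^ k := one_le_pow₀ (by norm_num)
      rw [pow_succ]
      linarith
    rw [h3] at h2
    have h5 : (2 : ℝ) ^ (d + 1) * 2 ^ (k + 1) * h = (2 ^ (d + 1) * h) * 2 ^ (k + 1) := by ring
    rw [h5] at h2
    nlinarith [h1.1, h2.2]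
  rcases lt_trichotomy d e with h1 | h1 | h1
  · exact absurd h1 (key hd he)
  · exact h1
  · exact absurd h1 (key he hd)

lemma bump_nonpos {d : ℕ} {h : ℝ} (hh : h ≤ 0) : bump d h = 0 := by
  by_contra H
  have h1 := bump_pos H
  have h2 : (0 : ℝ) < 2 ^ (d + 1) := by positivity
  nlinarith [h1.1]

lemma bump_self (d : ℕ) : bump d ((1 / 2) ^ (d + 1)) = 1 := by
  unfold bump
  rw [← mul_pow]
  norm_num

lemma continuous_bump (d : ℕ) : Continuous (bump d) := by
  unfold bump
  fun_prop

open Classical in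
/-- the coding function -/
noncomputable def F (D : Set ℕ) (c : ℝ) (h : ℝ) : ℝ :=
  ∑' d : ℕ, if d ∈ D then 4 * π * (1 / c) ^ (d + 1) * bump d h else 0

lemma F_eq_zero {D : Set ℕ} {c h : ℝ} (H : ∀ d ∈ D, bump d h = 0) : F D c h = 0 := by
  unfold F
  rw [← tsum_zero (α := ℝ) (β := ℕ)]
  congr 1
  funext d
  by_cases hd : d ∈ D
  · simp [hd, H d hd]
  · simp [hd]

lemma F_eq {D : Set ℕ} {c h : ℝ} {d : ℕ} (hd : d ∈ D) (H : bump d h ≠ 0) :
    F D c h = 4 * π * (1 / c) ^ (d + 1) * bump d h := by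
  unfold F
  rw [tsum_eq_single d]
  · simp [hd]
  · intro e he
    by_cases h2 : bump e h = 0
    · simp [h2]
    · exact absurd (bump_unique h2 H) he

lemma F_nonpos {D : Set ℕ} {c h : ℝ} (hh : h ≤ 0) : F D c h = 0 :=
  F_eq_zero fun _ _ => bump_nonpos hh

lemma continuous_F (D : Set ℕ) {c : ℝ} (hc : 1 < c) : Continuous (F D c) := by
  unfold F
  have hc0 : 0 ≤ 1 / c := by positivity
  have hc1 : 1 / c < 1 := by
    rw [div_lt_one (by linarith)]
    exact hc
  refine continuous_tsum (u := fun d : ℕ => 4 * π * (1 / c) ^ (d + 1)) ?_ ?_ ?_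
  · intro d
    by_cases hd : d ∈ D
    · simp only [hd, if_true]
      exact continuous_const.mul (continuous_bump d)
    · simp only [hd, if_false]
      exact continuous_const
  · apply Summable.mul_left
    exact (summable_nat_add_iff 1).2 (summable_geometric_of_lt_one hc0 hc1)
  · intro d h
    have h0 : 0 ≤ 4 * π * (1 / c) ^ (d + 1) := by positivity
    by_cases hd : d ∈ D
    · simp only [hd, if_true]
      rw [Real.norm_eq_abs, abs_of_nonneg (mul_nonneg h0 (bump_nonneg d h))]
      exact mul_le_of_le_one_right h0 (bump_le d h)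
    · simp only [hd, if_false, norm_zero]
      exact h0

lemma F_cases (D : Set ℕ) (h : ℝ) :
    (∀ c, F D c h = 0) ∨ ∃ d ∈ D, ∃ t : ℝ, 0 < t ∧ t ≤ 1 ∧
      ∀ c, F D c h = 4 * π * (1 / c) ^ (d + 1) * t := by
  by_cases H : ∀ d ∈ D, bump d h = 0
  · exact Or.inl fun c => F_eq_zero H
  · push Not at H
    obtain ⟨d, hd, hb⟩ := H
    exact Or.inr ⟨d, hd, bump d h, lt_of_le_of_ne (bump_nonneg d h) hb.symm, bump_le d h,
      fun c => F_eq hd hb⟩

/-- the rotation angle of a point of height `h` by a point of height `k` -/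
noncomputable def g (D : Set ℕ) (h k : ℝ) : ℝ := F D 2 h * max (-k) 0 + F D 3 k * max (-h) 0

lemma g_self (D : Set ℕ) (h : ℝ) : g D h h = 0 := by
  unfold g
  rcases le_total h 0 with hh | hh
  · rw [F_nonpos hh, F_nonpos hh]
    ring
  · rw [max_eq_right (by linarith : -h ≤ 0)]
    ring

lemma continuous_g (D : Set ℕ) : Continuous (fun p : ℝ × ℝ => g D p.1 p.2) := by
  unfold g
  have h2 := continuous_F D (c := 2) (by norm_num)
  have h3 := continuous_F D (c := 3) (by norm_num)
  exact ((h2.comp continuous_fst).mul (continuous_snd.neg.max continuous_const)).add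
    ((h3.comp continuous_snd).mul (continuous_fst.neg.max continuous_const))

/-- The operation: `u * v` is `u` with its first two coordinates rotated by an angle that depends on
the heights of `u` and of `v`. -/
noncomputable def op (D : Set ℕ) (u v : Sph n) : Sph n := R (g D (ht u) (ht v)) u

lemma ht_op (D : Set ℕ) (u v : Sph n) : ht (op D u v) = ht u := rfl

lemma isTopQuandle_op (D : Set ℕ) : IsTopQuandle (op D : Sph n → Sph n → Sph n) where
  idem x := by rw [op, g_self, R0]
  bij y := Function.bijective_iff_has_inverse.2 ⟨fun x => R (-g D (ht x) (ht y)) x,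
      fun x => by
        show R (-g D (ht (op D x y)) (ht y)) (op D x y) = x
        rw [ht_op, op, RR, neg_add_cancel, R0],
      fun x => by
        show R (g D (ht (R (-g D (ht x) (ht y)) x)) (ht y)) (R (-g D (ht x) (ht y)) x) = x
        rw [ht_R, RR, add_neg_cancel, R0]⟩
  distrib x y z := by
    show R (g D (ht (op D x y)) (ht z)) (R (g D (ht x) (ht y)) x) =
      R (g D (ht (op D x z)) (ht (op D y z))) (R (g D (ht x) (ht z)) x)
    rw [ht_op, ht_op, ht_op, RR, RR, add_comm]
  cont := by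
    have h1 : Continuous fun p : Sph n × Sph n => ht p.1 := continuous_ht.comp continuous_fst
    have h2 : Continuous fun p : Sph n × Sph n => ht p.2 := continuous_ht.comp continuous_snd
    have h3 : Continuous fun p : Sph n × Sph n => (ht p.1, ht p.2) := h1.prodMk h2
    have h : Continuous fun p : Sph n × Sph n => g D (ht p.1) (ht p.2) :=
      Continuous.comp (f := fun p : Sph n × Sph n => (ht p.1, ht p.2)) (continuous_g D) h3
    have h4 : Continuous fun p : Sph n × Sph n => (g D (ht p.1) (ht p.2), p.1) :=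
      h.prodMk continuous_fst
    exact Continuous.comp (f := fun p : Sph n × Sph n => (g D (ht p.1) (ht p.2), p.1))
      continuous_R h4

lemma iter_op (D : Set ℕ) (u v : Sph n) (m : ℕ) :
    (fun x => op D x v)^[m] u = R (m * g D (ht u) (ht v)) u := by
  induction m with
  | zero => simp [R0]
  | succ m ih =>
    rw [Function.iterate_succ_apply', ih]
    show R (g D (ht (R (m * g D (ht u) (ht v)) u)) (ht v)) (R (m * g D (ht u) (ht v)) u) = _
    rw [ht_R, RR]
    congr 1
    push_cast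
    ring

/-! ### The invariant -/

/-- `u` has exact period `N` under `· * v` -/
def Per {X : Type} (op : X → X → X) (N : ℕ) (u v : X) : Prop :=
  (fun x => op x v)^[N] u = u ∧ ∀ m, 0 < m → m < N → (fun x => op x v)^[m] u ≠ u

/-- the invariant -/
def J {X : Type} (op : X → X → X) : Set ℕ :=
  {d | ∃ u v, Per op (2 ^ (d + 1)) u v ∧ Per op (3 ^ (d + 1)) v u}

lemma iter_iso {X : Type} {op op' : X → X → X} {h : X ≃ X}
    (H : ∀ x y, h (op x y) = op' (h x) (h y)) (m : ℕ) (u v : X) :
    (fun x => op' x (h v))^[m] (h u) = h ((fun x => op x v)^[m] u) := by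
  induction m with
  | zero => rfl
  | succ m ih => rw [Function.iterate_succ_apply', Function.iterate_succ_apply', ih, H]

lemma Per_iso {X : Type} {op op' : X → X → X} {h : X ≃ X}
    (H : ∀ x y, h (op x y) = op' (h x) (h y)) {N : ℕ} {u v : X} (hp : Per op N u v) :
    Per op' N (h u) (h v) := by
  refine ⟨?_, fun m h0 h1 h2 => hp.2 m h0 h1 ?_⟩
  · rw [iter_iso H, hp.1]
  · rw [iter_iso H] at h2
    exact h.injective h2

lemma J_sub {X : Type} {op op' : X → X → X} {h : X ≃ X}
    (H : ∀ x y, h (op x y) = op' (h x) (h y)) : J op ⊆ J op' := by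
  rintro d ⟨u, v, h1, h2⟩
  exact ⟨h u, h v, Per_iso H h1, Per_iso H h2⟩

lemma J_iso {X : Type} {op op' : X → X → X} (hh : AbsIso op op') : J op = J op' := by
  obtain ⟨h, H⟩ := hh
  apply Set.Subset.antisymm (J_sub H)
  apply J_sub (h := h.symm)
  intro x y
  apply h.injective
  rw [H]
  simp

/-- if `u` has exact period `p ^ (d + 1)` then `p ^ (d + 1)` times the angle is `2 π a` where `p`
does not divide `a` -/
lemma per_angle {D : Set ℕ} {p d : ℕ} (hp : 1 < p) {u v : Sph n}
    (h : Per (op D) (p ^ (d + 1)) u v) :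
    ∃ a : ℤ, (p : ℝ) ^ (d + 1) * g D (ht u) (ht v) = a * (2 * π) ∧ ¬ (p : ℤ) ∣ a := by
  have hfree : u.1 0 ^ 2 + u.1 1 ^ 2 ≠ 0 := by
    intro h0
    refine h.2 1 one_pos ?_ ?_
    · exact Nat.one_lt_pow (by omega) hp
    · rw [iter_op]
      exact R_fixed h0 _
  have h1 := h.1
  rw [iter_op, R_eq_iff hfree] at h1
  obtain ⟨a, ha⟩ := h1
  refine ⟨a, by rw [← ha]; push_cast; ring, ?_⟩
  rintro ⟨b, rfl⟩
  refine h.2 (p ^ d) (pow_pos (by omega) d) (Nat.pow_lt_pow_right hp (Nat.lt_succ_self d)) ?_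
  rw [iter_op, R_eq_iff hfree]
  refine ⟨b, ?_⟩
  have hp0 : (p : ℝ) ≠ 0 := by
    have : (0 : ℝ) < p := by exact_mod_cast (by omega : 0 < p)
    exact this.ne'
  have : (p : ℝ) * (((p ^ d : ℕ) : ℝ) * g D (ht u) (ht v)) = p * (b * (2 * π)) := by
    rw [← mul_assoc]
    have h2 : (p : ℝ) * ((p ^ d : ℕ) : ℝ) = ((p ^ (d + 1) : ℕ) : ℝ) := by
      push_cast
      ring
    rw [h2, ha]
    push_cast
    ring
  exact mul_left_cancel₀ hp0 this

/-- conversely, a free point with angle `2 π / N` has exact period `N` -/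
lemma per_of_angle {D : Set ℕ} {N : ℕ} (hN : 0 < N) {u v : Sph n}
    (hfree : u.1 0 ^ 2 + u.1 1 ^ 2 ≠ 0) (h : g D (ht u) (ht v) = 2 * π / N) :
    Per (op D) N u v := by
  have hN' : (0 : ℝ) < N := by exact_mod_cast hN
  have hpi := pi_pos
  refine ⟨?_, fun m h0 h1 => ?_⟩
  · rw [iter_op, R_eq_iff hfree, h]
    refine ⟨1, ?_⟩
    field_simp
    simp
  · rw [iter_op]
    intro h2
    rw [R_eq_iff hfree, h] at h2
    obtain ⟨k, hk⟩ := h2
    have h3 : (m : ℝ) = k * N := by
      field_simp at hk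
      nlinarith [hk]
    have h4 : (m : ℤ) = k * N := by exact_mod_cast h3
    have h5 : (0 : ℤ) < k := by
      by_contra hc
      have : k * (N : ℤ) ≤ 0 := mul_nonpos_of_nonpos_of_nonneg (not_lt.1 hc) (by positivity)
      omega
    have h6 : (N : ℤ) ≤ k * N := by nlinarith
    omega

lemma odd_of {a : ℤ} (h : ¬ (2 : ℤ) ∣ a) : a % 2 = 1 := by omega

/-- arithmetic core, first case -/
lemma core1 {d e : ℕ} {a b : ℤ} {s : ℝ} (hs : 0 < s) (hs2 : s ≤ 2)
    (h2 : (2 : ℝ) ^ (d + 1) * ((1 / 2) ^ (e + 1) * s) = a)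
    (h3 : (3 : ℝ) ^ (d + 1) * ((1 / 3) ^ (e + 1) * s) = b)
    (ha : ¬ (2 : ℤ) ∣ a) : d = e := by
  rcases lt_trichotomy d e with h | h | h
  · exfalso
    obtain ⟨k, rfl⟩ := Nat.exists_eq_add_of_lt h
    -- s = 2^(k+1) a = 3^(k+1) b
    have e2 : s = 2 ^ (k + 1) * a := by
      rw [← h2]
      have : (2 : ℝ) ^ (k + 1) * (2 ^ (d + 1) * ((1 / 2) ^ (d + k + 1 + 1) * s)) =
        (2 ^ (d + k + 1 + 1) * (1 / 2) ^ (d + k + 1 + 1)) * s := by
        rw [show d + k + 1 + 1 = (k + 1) + (d + 1) by ring, pow_add 2]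
        ring
      rw [this, ← mul_pow]
      norm_num
    have e3 : s = 3 ^ (k + 1) * b := by
      rw [← h3]
      have : (3 : ℝ) ^ (k + 1) * (3 ^ (d + 1) * ((1 / 3) ^ (d + k + 1 + 1) * s)) =
        (3 ^ (d + k + 1 + 1) * (1 / 3) ^ (d + k + 1 + 1)) * s := by
        rw [show d + k + 1 + 1 = (k + 1) + (d + 1) by ring, pow_add 3]
        ring
      rw [this, ← mul_pow]
      norm_num
    have hb0 : (0 : ℝ) < b := by
      rw [e3] at hs
      exact (mul_pos_iff_of_pos_left (by positivity)).1 hs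
    have hb1 : (1 : ℝ) ≤ b := by
      have : (0 : ℤ) < b := by exact_mod_cast hb0
      exact_mod_cast this
    have h33 : (3 : ℝ) ≤ 3 ^ (k + 1) := by
      have : (1 : ℝ) ≤ 3 ^ k := one_le_pow₀ (by norm_num)
      rw [pow_succ]
      linarith
    nlinarith
  · exact h
  · exfalso
    obtain ⟨k, rfl⟩ := Nat.exists_eq_add_of_lt h
    -- 2^(k+1) s = a, 3^(k+1) s = b
    have e2 : 2 ^ (k + 1) * s = a := by
      rw [← h2]
      have : (2 : ℝ) ^ (e + k + 1 + 1) * ((1 / 2) ^ (e + 1) * s) =
        2 ^ (k + 1) * ((2 ^ (e + 1) * (1 / 2) ^ (e + 1)) * s) := by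
        rw [show e + k + 1 + 1 = (k + 1) + (e + 1) by ring, pow_add 2]
        ring
      rw [this, ← mul_pow]
      norm_num
    have e3 : 3 ^ (k + 1) * s = b := by
      rw [← h3]
      have : (3 : ℝ) ^ (e + k + 1 + 1) * ((1 / 3) ^ (e + 1) * s) =
        3 ^ (k + 1) * ((3 ^ (e + 1) * (1 / 3) ^ (e + 1)) * s) := by
        rw [show e + k + 1 + 1 = (k + 1) + (e + 1) by ring, pow_add 3]
        ring
      rw [this, ← mul_pow]
      norm_num
    have e4 : (3 : ℝ) ^ (k + 1) * a = 2 ^ (k + 1) * b := by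
      rw [← e2, ← e3]
      ring
    have e5 : (3 : ℤ) ^ (k + 1) * a = 2 ^ (k + 1) * b := by exact_mod_cast e4
    have e6 : (2 : ℤ) ∣ 3 ^ (k + 1) * a := by
      rw [e5]
      exact Dvd.dvd.mul_right (dvd_pow_self 2 (by omega)) b
    rcases Int.Prime.dvd_mul' Nat.prime_two e6 with h7 | h7
    · have := Int.Prime.dvd_pow' Nat.prime_two h7
      omega
    · exact ha h7

/-- arithmetic core, second case -/
lemma core2 {d e : ℕ} {a b : ℤ} {s : ℝ}
    (h2 : (2 : ℝ) ^ (d + 1) * ((1 / 3) ^ (e + 1) * s) = a)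
    (h3 : (3 : ℝ) ^ (d + 1) * ((1 / 2) ^ (e + 1) * s) = b)
    (ha : ¬ (2 : ℤ) ∣ a) : False := by
  have e1 : (3 : ℝ) ^ (e + 1) * 3 ^ (d + 1) * a = 2 ^ (e + 1) * 2 ^ (d + 1) * b := by
    rw [← h2, ← h3]
    have h5 : (3 : ℝ) ^ (e + 1) * 3 ^ (d + 1) * (2 ^ (d + 1) * ((1 / 3) ^ (e + 1) * s)) =
      (3 ^ (e + 1) * (1 / 3) ^ (e + 1)) * (3 ^ (d + 1) * 2 ^ (d + 1) * s) := by ring
    have h6 : (2 : ℝ) ^ (e + 1) * 2 ^ (d + 1) * (3 ^ (d + 1) * ((1 / 2) ^ (e + 1) * s)) =
      (2 ^ (e + 1) * (1 / 2) ^ (e + 1)) * (3 ^ (d + 1) * 2 ^ (d + 1) * s) := by ring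
    have h7 : (3 : ℝ) ^ (e + 1) * (1 / 3) ^ (e + 1) = 1 := by
      rw [← mul_pow]
      norm_num
    have h8 : (2 : ℝ) ^ (e + 1) * (1 / 2) ^ (e + 1) = 1 := by
      rw [← mul_pow]
      norm_num
    rw [h5, h6, h7, h8]
  have e2 : (3 : ℤ) ^ (e + 1) * 3 ^ (d + 1) * a = 2 ^ (e + 1) * 2 ^ (d + 1) * b := by
    exact_mod_cast e1
  have e6 : (2 : ℤ) ∣ 3 ^ (e + 1) * 3 ^ (d + 1) * a := by
    rw [e2]
    exact ((dvd_pow_self (2 : ℤ) (by omega : e + 1 ≠ 0)).mul_right _).mul_right b
  rcases Int.Prime.dvd_mul' Nat.prime_two e6 with h7 | h7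
  · rcases Int.Prime.dvd_mul' Nat.prime_two h7 with h8 | h8
    · have := Int.Prime.dvd_pow' Nat.prime_two h8
      omega
    · have := Int.Prime.dvd_pow' Nat.prime_two h8
      omega
  · exact ha h7

theorem J_op (D : Set ℕ) : J (op D : Sph n → Sph n → Sph n) = D := by
  apply Set.Subset.antisymm
  · rintro d ⟨u, v, hu, hv⟩
    obtain ⟨a, ha, ha'⟩ := per_angle (by norm_num) hu
    obtain ⟨b, hb, hb'⟩ := per_angle (by norm_num) hv
    have hpi := pi_pos
    set h := ht u
    set k := ht v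
    have hzero : g D h k ≠ 0 := by
      intro h0
      rw [h0, mul_zero] at ha
      have : (a : ℝ) = 0 := by
        rcases mul_eq_zero.1 ha.symm with h1 | h1
        · exact h1
        · linarith
      have : a = 0 := by exact_mod_cast this
      exact ha' (this ▸ dvd_zero _)
    rcases le_or_gt h 0 with hh | hh
    · rcases le_or_gt k 0 with hk | hk
      · exact absurd (by unfold g; rw [F_nonpos hh, F_nonpos hk]; ring) hzero
      · exfalso
        have h1 : g D h k = F D 3 k * (-h) := by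
          unfold g
          rw [F_nonpos hh, max_eq_left (by linarith : (0 : ℝ) ≤ -h)]
          ring
        have h2 : g D k h = F D 2 k * (-h) := by
          unfold g
          rw [F_nonpos hh, max_eq_left (by linarith : (0 : ℝ) ≤ -h)]
          ring
        rcases F_cases D k with h3 | ⟨e, he, t, ht0, ht1, hF⟩
        · exact hzero (by rw [h1, h3, zero_mul])
        · refine core2 (d := d) (e := e) (a := a) (b := b) (s := 2 * t * (-h)) ?_ ?_ ha'
          · have : (2 * π) * ((2 : ℝ) ^ (d + 1) * ((1 / 3) ^ (e + 1) * (2 * t * (-h)))) =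
                (2 * π) * a := by
              rw [h1, hF] at ha
              push_cast at ha
              linear_combination ha
            exact mul_left_cancel₀ (by positivity) this
          · have : (2 * π) * ((3 : ℝ) ^ (d + 1) * ((1 / 2) ^ (e + 1) * (2 * t * (-h)))) =
                (2 * π) * b := by
              rw [h2, hF] at hb
              push_cast at hb
              linear_combination hb
            exact mul_left_cancel₀ (by positivity) this
    · rcases le_or_gt 0 k with hk | hk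
      · exact absurd (by
          unfold g
          rw [max_eq_right (by linarith : -k ≤ 0), max_eq_right (by linarith : -h ≤ 0)]
          ring) hzero
      · have h1 : g D h k = F D 2 h * (-k) := by
          unfold g
          rw [F_nonpos hk.le, max_eq_left (by linarith : (0 : ℝ) ≤ -k)]
          ring
        have h2 : g D k h = F D 3 h * (-k) := by
          unfold g
          rw [F_nonpos hk.le, max_eq_left (by linarith : (0 : ℝ) ≤ -k)]
          ring
        have hk1 : -k ≤ 1 := by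
          have h4 := mem_iff.1 v.2
          rw [sum_split] at h4
          have h5 : k ^ 2 ≤ ∑ i : Fin (n + 1), v.1 i.succ.succ ^ 2 := by
            have := Finset.single_le_sum (f := fun i : Fin (n + 1) => v.1 i.succ.succ ^ 2)
              (fun i _ => sq_nonneg _) (Finset.mem_univ 0)
            exact this
          nlinarith [sq_nonneg (v.1 0), sq_nonneg (v.1 1)]
        rcases F_cases D h with h3 | ⟨e, he, t, ht0, ht1, hF⟩
        · exact absurd (by rw [h1, h3, zero_mul]) hzero
        · have : d = e := by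
            refine core1 (d := d) (e := e) (a := a) (b := b) (s := 2 * t * (-k)) ?_ ?_ ?_ ?_ ha'
            · have : 0 < -k := by linarith
              positivity
            · nlinarith
            · have : (2 * π) * ((2 : ℝ) ^ (d + 1) * ((1 / 2) ^ (e + 1) * (2 * t * (-k)))) =
                  (2 * π) * a := by
                rw [h1, hF] at ha
                push_cast at ha
                linear_combination ha
              exact mul_left_cancel₀ (by positivity) this
            · have : (2 * π) * ((3 : ℝ) ^ (d + 1) * ((1 / 3) ^ (e + 1) * (2 * t * (-k)))) =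
                  (2 * π) * b := by
                rw [h2, hF] at hb
                push_cast at hb
                linear_combination hb
              exact mul_left_cancel₀ (by positivity) this
          rw [this]
          exact he
  · intro d hd
    have hpow : ((1 : ℝ) / 2) ^ (d + 1) ≤ 1 / 2 := by
      rw [pow_succ]
      have : ((1 : ℝ) / 2) ^ d ≤ 1 := pow_le_one₀ (by norm_num) (by norm_num)
      linarith
    have hpos : (0 : ℝ) < (1 / 2) ^ (d + 1) := by positivity
    obtain ⟨u, hu, hu'⟩ := exists_ht (n := n) ((1 / 2) ^ (d + 1)) (by nlinarith)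
    obtain ⟨v, hv, hv'⟩ := exists_ht (n := n) (-1 / 2) (by norm_num)
    have hb : bump d ((1 / 2) ^ (d + 1)) ≠ 0 := by
      rw [bump_self]
      norm_num
    refine ⟨u, v, per_of_angle (by positivity) hu' ?_, per_of_angle (by positivity) hv' ?_⟩
    · rw [hu, hv, g, F_eq hd hb, bump_self, F_nonpos (by norm_num : (-1 / 2 : ℝ) ≤ 0)]
      rw [max_eq_left (by norm_num : (0 : ℝ) ≤ -(-1 / 2))]
      push_cast
      rw [one_div_pow (2 : ℝ)]
      ring
    · rw [hu, hv, g, F_eq hd hb, bump_self, F_nonpos (by norm_num : (-1 / 2 : ℝ) ≤ 0)]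
      rw [max_eq_left (by norm_num : (0 : ℝ) ≤ -(-1 / 2))]
      push_cast
      rw [one_div_pow (3 : ℝ)]
      ring

/-! ### Counting -/

lemma card_le (n : ℕ) : Cardinal.mk (IsoClasses (Sph n)) ≤ Cardinal.continuum := by
  refine le_trans (Cardinal.mk_quotient_le) ?_
  have : Nonempty (Sph n) := ⟨(exists_pole (n := n)).choose⟩
  let s := TopologicalSpace.denseSeq (Sph n × Sph n)
  let Φ : {op : Sph n → Sph n → Sph n // IsTopQuandle op} → (ℕ × Fin (n + 3) → ℝ) :=
    fun o p => (o.1 (s p.1).1 (s p.1).2).1 p.2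
  have hΦ : Function.Injective Φ := by
    intro o o' h
    apply Subtype.ext
    have h1 : (fun p : Sph n × Sph n => o.1 p.1 p.2) = fun p => o'.1 p.1 p.2 := by
      apply Continuous.ext_on (TopologicalSpace.denseRange_denseSeq (Sph n × Sph n)) o.2.cont
        o'.2.cont
      rintro _ ⟨m, rfl⟩
      apply Subtype.ext
      ext i
      exact congrFun h (m, i)
    funext x y
    exact congrFun h1 (x, y)
  refine le_trans (Cardinal.mk_le_of_injective hΦ) ?_
  rw [← Cardinal.power_def, Cardinal.mk_real]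
  have : Cardinal.mk (ℕ × Fin (n + 3)) = Cardinal.aleph0 := by
    have : Infinite (ℕ × Fin (n + 3)) := inferInstance
    exact Cardinal.mk_eq_aleph0 _
  rw [this, Cardinal.continuum_power_aleph0]

lemma le_card (n : ℕ) : Cardinal.continuum ≤ Cardinal.mk (IsoClasses (Sph n)) := by
  have h : Cardinal.mk (Set ℕ) = Cardinal.continuum := by
    rw [Cardinal.mk_set, Cardinal.mk_nat, Cardinal.two_power_aleph0]
  rw [← h]
  let Φ : Set ℕ → IsoClasses (Sph n) := fun D =>
    Quotient.mk (isoSetoid (Sph n)) ⟨op D, isTopQuandle_op D⟩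
  refine Cardinal.mk_le_of_injective (f := Φ) ?_
  intro D D' hD
  obtain ⟨k, hk⟩ := Quotient.exact hD
  have : J (op D : Sph n → Sph n → Sph n) = J (op D' : Sph n → Sph n → Sph n) :=
    J_iso ⟨k.toEquiv, hk⟩
  rwa [J_op, J_op] at this

/-- **Topological quandle structures on spheres.**
(1) For every `n ≥ 2` (written `n + 2`) there are exactly continuum many isomorphism classes of
topological quandle structures on the sphere `S^n`.
(2) On the 2-sphere there is a family of topological quandle structures indexed by the subsets of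
`ℕ` which are pairwise non-isomorphic, not isomorphic to the trivial quandle and not isomorphic to a
spherical quandle, all this even as abstract quandles. -/
theorem result :
    (∀ n : ℕ, Cardinal.mk (IsoClasses (Sph n)) = Cardinal.continuum) ∧
    ∃ q : Set ℕ → Sph 0 → Sph 0 → Sph 0, (∀ D, IsTopQuandle (q D)) ∧
      (∀ D D', AbsIso (q D) (q D') → D = D') ∧
      (∀ D, ¬ AbsIso (q D) (fun u _ => u)) ∧
      ∀ (D : Set ℕ) (ψ : ℝ), 0 < ψ → ψ < 2 * π →
        ¬ ∃ h : Sph 0 ≃ Sph 0, ∀ x y, (h (q D x y)).1 = rot ψ (h y).1 (h x).1 := by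
  refine ⟨fun n => le_antisymm (card_le n) (le_card n),
    fun D => op (insert 0 (Nat.succ '' D)), fun D => isTopQuandle_op _, ?_, ?_, ?_⟩
  · intro D D' h
    have h1 := J_iso h
    rw [J_op, J_op] at h1
    ext d
    have h2 := Set.ext_iff.1 h1 (d + 1)
    simpa using h2
  · intro D h
    have h1 := J_iso h
    rw [J_op] at h1
    have h2 : (0 : ℕ) ∈ J (fun (u : Sph 0) (_ : Sph 0) => u) := by
      rw [← h1]
      exact Set.mem_insert _ _
    obtain ⟨u, v, h3, -⟩ := h2
    refine h3.2 1 one_pos (by norm_num) rfl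
  · rintro D ψ h1 h2 ⟨h, H⟩
    obtain ⟨N, hN⟩ := exists_pole (n := 0)
    have k : ∀ v : Sph 0, (h N).1 = rot ψ v.1 (h N).1 := fun v => by
      have := H N (h.symm v)
      rw [h.apply_symm_apply] at this
      rw [← this]
      congr 2
      exact (R_fixed hN _).symm
    have hu := mem_iff.1 (h N).2
    rw [Fin.sum_univ_three] at hu
    generalize (h N).1 = u at k hu
    have m1 : (!₂[1, 0, 0] : EuclideanSpace ℝ (Fin 3)) ∈
        Metric.sphere (0 : EuclideanSpace ℝ (Fin (0 + 3))) 1 := by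
      rw [mem_iff, Fin.sum_univ_three]
      simp
    have m2 : (!₂[0, 1, 0] : EuclideanSpace ℝ (Fin 3)) ∈
        Metric.sphere (0 : EuclideanSpace ℝ (Fin (0 + 3))) 1 := by
      rw [mem_iff, Fin.sum_univ_three]
      simp
    have a := fun i => congrArg (· i) (k ⟨!₂[1, 0, 0], m1⟩)
    have b := fun i => congrArg (· i) (k ⟨!₂[0, 1, 0], m2⟩)
    have a1 := a 1
    have a2 := a 2
    have b0 := b 0
    have b2 := b 2
    simp [rot, crossProduct] at a1 a2 b0 b2
    have hc : cos ψ ≠ 1 := fun e => by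
      have := (cos_eq_one_iff_of_lt_of_lt (by linarith [pi_pos]) h2).1 e
      linarith
    have c1 : (1 - cos ψ) * (u 1 ^ 2 + u 2 ^ 2) = 0 := by linear_combination u 1 * a1 + u 2 * a2
    have c2 : (1 - cos ψ) * (u 0 ^ 2 + u 2 ^ 2) = 0 := by linear_combination u 0 * b0 + u 2 * b2
    have d1 := (mul_eq_zero.1 c1).resolve_left (sub_ne_zero.2 hc.symm)
    have d2 := (mul_eq_zero.1 c2).resolve_left (sub_ne_zero.2 hc.symm)
    nlinarith [sq_nonneg (u 2)]

end Pool.Agent.Results.MP_6238b5_al.ContinuumMany
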